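import Pool.Agent.H2.KM.Targets
import Pool.Agent.H2.NL.Basic

/-!
# Row KIM: the symmetrizer is numerically trivial
-/

set_option autoImplicit false

open Matrix Pool.Agent.H2.NL Pool.Agent.H2.KM Pool.Agent.H64.CC

namespace Pool.Agent.H11.KM

section

variable {K : Type} [Field K] {I : Type}

theorem sel_perm (o : I → Bool) : ∀ (v : List I), ∀ x ∈ sel K o v, (x.2.1 :: x.2.2).Perm v
  | [], x, hx => by simp [sel] at hx
  | b :: v, x, hx => by
    unfold sel at hx
    rcases List.mem_cons.1 hx with h | h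
    · rw [h]
    · obtain ⟨y, hy, rfl⟩ := List.mem_map.1 h
      have h1 := sel_perm o v y hy
      exact (List.Perm.swap b y.2.1 y.2.2).trans (h1.cons b)

theorem exists_of_sum_ne {α : Type} (f : α → K) : ∀ (l : List α), (l.map f).sum ≠ 0 →
    ∃ x ∈ l, f x ≠ 0
  | [], h => (h rfl).elim
  | a :: l, h => by
    by_cases ha : f a = 0
    · have h1 : (l.map f).sum ≠ 0 := by
        intro h2
        apply h
        rw [List.map_cons, List.sum_cons, ha, h2, add_zero]
      obtain ⟨x, hx, hx'⟩ := exists_of_sum_ne f l h1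
      exact ⟨x, List.mem_cons_of_mem _ hx, hx'⟩
    · exact ⟨a, List.mem_cons_self, ha⟩

theorem sp_perm [DecidableEq I] (o : I → Bool) : ∀ (u v : List I),
    sp o (1 : Matrix I I K) u v ≠ 0 → v.Perm u
  | [], [], _ => List.Perm.refl _
  | [], _ :: _, h => by
    exfalso
    apply h
    unfold sp
    rfl
  | a :: u, v, h => by
    unfold sp at h
    obtain ⟨x, hx, hx'⟩ := exists_of_sum_ne _ _ h
    have h1 : sp o (1 : Matrix I I K) u x.2.2 ≠ 0 := right_ne_zero_of_mul hx'
    have h2 : (1 : Matrix I I K) a x.2.1 ≠ 0 := right_ne_zero_of_mul (left_ne_zero_of_mul hx')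
    have h3 : a = x.2.1 := by
      by_contra h4
      exact h2 (Matrix.one_apply_ne h4)
    have h5 := sp_perm o u x.2.2 h1
    have h6 := sel_perm o v x hx
    rw [← h3] at h6
    exact h6.symm.trans (h5.cons a)

theorem sgw_perm (o : I → Bool) {u v : List I} (h : u.Perm v) : sgw K o u = sgw K o v :=
  (h.map _).prod_eq

end

theorem pf_KIM (h1 : T_SPZ) (h2 : T_BSY) (h3 : T_TRB) (h4 : T_MNN) (h5 : T_MLG) : T_KIM := by
  intro K _ _ I _ _ F A hA l hl hrec y hy
  obtain ⟨n, hn⟩ : ∃ n, n = 2 * l - 1 := ⟨_, rfl⟩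
  have h4' := h4 K I F A hA l hl hrec
  rw [← hn] at hy h4' ⊢
  have hpar : ∀ a b, F.η a b ≠ 0 → F.o a = F.o b := by
    intro a b hab
    have hb : b = F.st a := by
      by_contra hne
      apply hab
      unfold Form.η
      rw [Matrix.of_apply, if_neg hne]
    rw [hb, F.o_st]
  obtain ⟨hSS, hPx, z, hz, hzS⟩ := h1 K I F.o F.η F.ω A hA F.η_mul_ω F.ω_mul_η hpar n
  obtain ⟨S, hS⟩ : ∃ S : Matrix (List.Vector I n) (List.Vector I n) K, S = Sp F.o 1 n := ⟨_, rfl⟩
  obtain ⟨X, hX⟩ : ∃ X : Matrix (List.Vector I n) (List.Vector I n) K, X = op F.η n y := ⟨_, rfl⟩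
  rw [← hS] at hSS hPx hzS ⊢
  rw [← hX]
  obtain ⟨t1, ht1, ht1'⟩ := (h5 K I F A hA n).1 y hy z hz
  obtain ⟨y1, hy1, hy1'⟩ := (h5 K I F A hA n).1 z hz t1 ht1
  rw [ht1', hzS, ← hX] at hy1'
  obtain ⟨x, hx, hxy, hMA⟩ := h2 K I F A hA n y1 hy1 (fun j _ => by
    rw [hy1']
    constructor
    · rw [← Matrix.mul_assoc, (hPx j).1]
    · rw [Matrix.mul_assoc, Matrix.mul_assoc, (hPx j).2])
  have h6 := h3 K I F n y1 x hx hxy
  rw [h4' x hx hMA, hy1'] at h6
  -- the trace
  have hsg : ∀ u w : List.Vector I n, sgw K F.o u.1 * S w u = sgw K F.o w.1 * S w u := by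
    intro u w
    by_cases h : S w u = 0
    · rw [h, mul_zero, mul_zero]
    · rw [hS] at h
      have h7 := sp_perm F.o w.1 u.1 h
      rw [sgw_perm F.o h7]
  have h7 : (n.factorial : K) * ∑ u : List.Vector I n, sgw K F.o u.1 * (X * S) u u = 0 := by
    calc (n.factorial : K) * ∑ u : List.Vector I n, sgw K F.o u.1 * (X * S) u u
        = ∑ u : List.Vector I n, sgw K F.o u.1 * ((X * S) * S) u u := by
          rw [Matrix.mul_assoc, hSS, Finset.mul_sum]
          refine Finset.sum_congr rfl fun u _ => ?_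
          rw [Matrix.mul_smul, Matrix.smul_apply, smul_eq_mul]
          ring
      _ = ∑ u : List.Vector I n, ∑ w : List.Vector I n, sgw K F.o u.1 * ((X * S) u w * S w u) := by
          refine Finset.sum_congr rfl fun u _ => ?_
          rw [Matrix.mul_apply, Finset.mul_sum]
      _ = ∑ w : List.Vector I n, ∑ u : List.Vector I n, sgw K F.o w.1 * (S w u * (X * S) u w) := by
          rw [Finset.sum_comm]
          refine Finset.sum_congr rfl fun w _ => Finset.sum_congr rfl fun u _ => ?_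
          have := hsg u w
          linear_combination (X * S) u w * this
      _ = ∑ w : List.Vector I n, sgw K F.o w.1 * (S * (X * S)) w w := by
          refine Finset.sum_congr rfl fun w _ => ?_
          rw [Matrix.mul_apply (M := S), Finset.mul_sum]
      _ = 0 := h6
  rcases mul_eq_zero.1 h7 with h8 | h8
  · exact absurd h8 (Nat.cast_ne_zero.2 n.factorial_ne_zero)
  · exact h8

end Pool.Agent.H11.KM
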